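import Mathlib
import Pool.Agent.Lib.helper6.IntK

set_option autoImplicit false

namespace Pool.Agent.Results.MP_457b0e_al.Closure

open Polynomial TensorProduct Algebra.TensorProduct Pool.Agent.Lib.helper6.IntK

variable (D K A : Type*) [CommRing D] [Field K] [Algebra D K] [Ring A] [Algebra D A]

/-- `Int_K(A)`, with `B = K ⊗_D A` -/
noncomputable def IntK : Subring K[X] :=
  ⨅ a : A, (includeRight : A →ₐ[D] K ⊗[D] A).range.toSubring.comap
    (aeval (includeRight (R := D) (A := K) a)).toRingHom

/-- `Int_K(A, A')` -/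
def IntK' : Set K[X] := {f | ∀ a : A, IsIntegral D (aeval (includeRight (R := D) (A := K) a) f)}

theorem result [IsDomain D] [IsIntegrallyClosed D] [IsFractionRing D K]
    (hA : Function.Injective (algebraMap D A)) [Module.IsTorsionFree D A] [Module.Finite D A]
    (φ : RatFunc K) :
    IsIntegral (IntK D K A) φ ↔ ∃ f ∈ IntK' D K A, algebraMap K[X] (RatFunc K) f = φ := by
  constructor
  · intro h
    obtain ⟨f, rfl⟩ := IsIntegrallyClosed.algebraMap_eq_of_integral (h.tower_top (A := K[X]))
    refine ⟨f, fun a => ?_, rfl⟩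
    rw [isIntegral_algebraMap_iff (IsFractionRing.injective K[X] _)] at h
    set ψ := ((aeval (includeRight (R := D) (A := K) a) : K[X] →ₐ[K] K ⊗[D] A)).restrictScalars D
    have inj := Ideal.kerLiftAlg_injective ψ
    have t : ∀ g, IsIntegral D (ψ g) ↔ IsIntegral D (Ideal.Quotient.mk (RingHom.ker ψ) g) :=
      fun g => isIntegral_algHom_iff _ inj (x := Ideal.Quotient.mk (RingHom.ker ψ) g)
    refine (t f).2 ?_
    let θ : IntK D K A →+* integralClosure D (K[X] ⧸ RingHom.ker ψ) :=
      ((Ideal.Quotient.mk _).comp (IntK D K A).subtype).codRestrict _ fun g => (t g).1 (by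
        obtain ⟨b, hb⟩ := Subring.mem_iInf.1 g.2 a
        exact (show includeRight b = ψ g from hb) ▸ (Algebra.IsIntegral.isIntegral b).map _)
    exact isIntegral_trans (A := integralClosure D (K[X] ⧸ RingHom.ker ψ)) _
      (h.map_of_comp_eq θ (Ideal.Quotient.mk _) rfl)
  · rintro ⟨f, hf, rfl⟩
    have : Nontrivial (K ⊗[D] A) := by
      have := IsLocalization.flat K (nonZeroDivisors D)
      exact (includeLeft_injective (S := D) (A := K) hA).nontrivial
    obtain ⟨G, g1, g2, g3⟩ := key (includeRight : A →ₐ[D] K ⊗[D] A).range f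
      (by rintro _ ⟨a, rfl⟩; exact hf a)
    have : aeval f G ∈ IntK D K A := Subring.mem_iInf.2 fun a => by
      have := g3 (includeRight a) ⟨a, rfl⟩
      have e := hom_eval₂ G (algebraMap ℤ K[X]) (aeval (includeRight (R := D) (A := K) a) :
        K[X] →ₐ[K] K ⊗[D] A).toRingHom f
      rw [RingHom.ext_int (RingHom.comp _ _) (Int.castRingHom _)] at e
      exact this.imp fun _ h => h.trans e.symm
    refine IsIntegral.algebraMap ⟨G.map (algebraMap ℤ _) - C ⟨_, this⟩,
      (g1.map _).sub_of_left (degree_C_le.trans_lt (by rwa [g1.degree_map])), ?_⟩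
    rw [← aeval_def, map_sub, aeval_map_algebraMap, aeval_C, sub_eq_zero]
    rfl

end Pool.Agent.Results.MP_457b0e_al.Closure
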